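import Pool.Agent.H308R3.DM.Stmts

/-! Task Stay of project DIAMOND. -/

set_option autoImplicit false

namespace Pool.Agent.H123R3.DM

open Pool.Agent.H308R3.DM Finset
open scoped Classical BigOperators

theorem ex_nonneg (F : Pt → Finset Pt → ℝ) (hF : ∀ y S, 0 ≤ F y S) :
    ∀ (n : ℕ) (x : Pt) (S : Finset Pt), 0 ≤ ex n x S F := by
  intro n
  induction n with
  | zero => intro x S; exact hF x S
  | succ n ih =>
    intro x S
    rw [ex]
    exact div_nonneg (Finset.sum_nonneg fun s _ => ih _ _) (by norm_num)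

/-- the eigenfunction -/
noncomputable def ph (a : ℝ) (x : Pt) : ℝ := Real.cos (a * x.1) * Real.cos (a * x.2)

theorem ph_sum (a : ℝ) (x : Pt) : (∑ s : Stp, ph a (x + dv s)) / 4 = Real.cos a ^ 2 * ph a x := by
  rw [Fintype.sum_prod_type]
  simp only [Fintype.sum_bool, ph, dv, sg, Prod.fst_add, Prod.snd_add, if_true, Bool.false_eq_true,
    if_false]
  push_cast
  have h1 : Real.cos (a * ((x.1 : ℝ) + 1)) = Real.cos (a * x.1) * Real.cos a -
      Real.sin (a * x.1) * Real.sin a := by rw [mul_add, mul_one, Real.cos_add]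
  have h2 : Real.cos (a * ((x.1 : ℝ) + -1)) = Real.cos (a * x.1) * Real.cos a +
      Real.sin (a * x.1) * Real.sin a := by
    rw [mul_add, mul_neg_one, ← sub_eq_add_neg, Real.cos_sub]
  have h3 : Real.cos (a * ((x.2 : ℝ) + 1)) = Real.cos (a * x.2) * Real.cos a -
      Real.sin (a * x.2) * Real.sin a := by rw [mul_add, mul_one, Real.cos_add]
  have h4 : Real.cos (a * ((x.2 : ℝ) + -1)) = Real.cos (a * x.2) * Real.cos a +
      Real.sin (a * x.2) * Real.sin a := by
    rw [mul_add, mul_neg_one, ← sub_eq_add_neg, Real.cos_sub]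
  rw [h1, h2, h3, h4]
  ring

theorem cos_edge (r : ℕ) (u : ℤ) (hu : u = (r : ℤ) + 1 ∨ u = -((r : ℤ) + 1)) :
    Real.cos (Real.pi / (2 * ((r : ℝ) + 1)) * (u : ℝ)) = 0 := by
  have hr : ((r : ℝ) + 1) ≠ 0 := by positivity
  rcases hu with rfl | rfl
  · push_cast
    have : Real.pi / (2 * ((r : ℝ) + 1)) * ((r : ℝ) + 1) = Real.pi / 2 := by
      field_simp
    rw [this, Real.cos_pi_div_two]
  · push_cast
    have : Real.pi / (2 * ((r : ℝ) + 1)) * (-((r : ℝ) + 1)) = -(Real.pi / 2) := by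
      field_simp
    rw [this, Real.cos_neg, Real.cos_pi_div_two]

theorem mem_sq0 (r : ℕ) (x : Pt) : x ∈ sq 0 r ↔
    (-(r : ℤ) ≤ x.1 ∧ x.1 ≤ r ∧ -(r : ℤ) ≤ x.2 ∧ x.2 ≤ r) ∧ (x.1 - x.2) % 2 = 0 := by
  unfold H308R3.DM.sq
  rw [mem_filter, mem_product, mem_Icc, mem_Icc]
  simp only [Prod.fst_zero, Prod.snd_zero, zero_sub, zero_add]
  tauto

theorem stay_aux (r : ℕ) (T : Finset Pt) (hT : sq 0 r ⊆ T) : ∀ (n : ℕ) (x : Pt) (S : Finset Pt),
    x ∈ sq 0 r → S ⊆ T →
    (Real.cos (Real.pi / (2 * ((r : ℝ) + 1))) ^ 2) ^ n * ph (Real.pi / (2 * ((r : ℝ) + 1))) x ≤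
      ex n x S (fun _ S' => if S' ⊆ T then 1 else 0) := by
  intro n
  induction n with
  | zero =>
    intro x S hx hS
    rw [pow_zero, one_mul, ex, if_pos hS]
    unfold ph
    have h1 := Real.abs_cos_le_one (Real.pi / (2 * ((r : ℝ) + 1)) * x.1)
    have h2 := Real.abs_cos_le_one (Real.pi / (2 * ((r : ℝ) + 1)) * x.2)
    calc _ ≤ |Real.cos (Real.pi / (2 * ((r : ℝ) + 1)) * x.1) *
          Real.cos (Real.pi / (2 * ((r : ℝ) + 1)) * x.2)| := le_abs_self _
      _ ≤ 1 := by
        rw [abs_mul]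
        exact mul_le_one₀ h1 (abs_nonneg _) h2
  | succ n ih =>
    intro x S hx hS
    rw [ex]
    have key : ∀ s : Stp, (Real.cos (Real.pi / (2 * ((r : ℝ) + 1))) ^ 2) ^ n *
        ph (Real.pi / (2 * ((r : ℝ) + 1))) (x + dv s) ≤
        ex n (x + dv s) (insert (x + dv s) S) (fun _ S' => if S' ⊆ T then 1 else 0) := by
      intro s
      by_cases hs : x + dv s ∈ sq 0 r
      · exact ih _ _ hs (insert_subset (hT hs) hS)
      · have h0 : ph (Real.pi / (2 * ((r : ℝ) + 1))) (x + dv s) = 0 := by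
          rw [mem_sq0] at hx hs
          have e1 : sg s.1 = 1 ∨ sg s.1 = -1 := by
            unfold sg; split_ifs <;> simp
          have e2 : sg s.2 = 1 ∨ sg s.2 = -1 := by
            unfold sg; split_ifs <;> simp
          have f1 : (x + dv s).1 = x.1 + sg s.1 := rfl
          have f2 : (x + dv s).2 = x.2 + sg s.2 := rfl
          have hc : ((x + dv s).1 = (r : ℤ) + 1 ∨ (x + dv s).1 = -((r : ℤ) + 1)) ∨
              ((x + dv s).2 = (r : ℤ) + 1 ∨ (x + dv s).2 = -((r : ℤ) + 1)) := by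
            rw [f1, f2] at hs ⊢
            by_contra hcon
            apply hs
            rcases e1 with e1 | e1 <;> rcases e2 with e2 | e2 <;> rw [e1, e2] at hcon ⊢ <;> omega
          unfold ph
          rcases hc with hc | hc
          · rw [cos_edge r _ hc, zero_mul]
          · rw [cos_edge r _ hc, mul_zero]
        rw [h0, mul_zero]
        apply ex_nonneg
        intro y S'
        split_ifs <;> norm_num
    have hsum := Finset.sum_le_sum fun s (_ : s ∈ (univ : Finset Stp)) => key s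
    rw [← Finset.mul_sum] at hsum
    have e := ph_sum (Real.pi / (2 * ((r : ℝ) + 1))) x
    have e' : ∑ s : Stp, ph (Real.pi / (2 * ((r : ℝ) + 1))) (x + dv s) =
        4 * (Real.cos (Real.pi / (2 * ((r : ℝ) + 1))) ^ 2 *
          ph (Real.pi / (2 * ((r : ℝ) + 1))) x) := by
      rw [← e]; ring
    rw [e'] at hsum
    rw [le_div_iff₀ (by norm_num)]
    refine le_trans (le_of_eq ?_) hsum
    rw [pow_succ]
    ring

theorem taskStay : TaskStay := by
  intro r n S
  have h := stay_aux r (S ∪ sq 0 r) subset_union_right n 0 S (by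
    rw [mem_sq0]
    simp) subset_union_left
  have h0 : ph (Real.pi / (2 * ((r : ℝ) + 1))) 0 = 1 := by
    unfold ph
    simp
  rw [h0, mul_one] at h
  exact h

end Pool.Agent.H123R3.DM
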